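import Pool.Agent.H380.AG.Stm

/-! # S_PERP from S_POLAR (helper264 for helper380) -/

set_option autoImplicit false

open MeasureTheory Metric Set Filter Topology
open scoped ENNReal RealInnerProductSpace

namespace Pool.Agent.H264.AG

open Pool.Agent.W778.AG Pool.Agent.H380.AG

theorem t_PERP (h : S_POLAR) : S_PERP := by
  intro n hn v hv
  obtain ⟨m, rfl⟩ : ∃ m, n = m + 1 := ⟨n - 1, by omega⟩
  obtain ⟨σ, ⟨⟨hσp, hσs⟩, hσm⟩, -⟩ := h m (by omega)
  have hv0 : v ≠ 0 := by
    intro h0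
    rw [h0, norm_zero] at hv
    exact zero_ne_one hv
  have hfr : Module.finrank ℝ (Submodule.span ℝ {v})ᗮ = m := by
    have : Fact (Module.finrank ℝ (En (m + 1)) = m + 1) := ⟨finrank_euclideanSpace_fin⟩
    exact Submodule.finrank_orthogonal_span_singleton hv0
  let e : (Submodule.span ℝ {v})ᗮ ≃ₗᵢ[ℝ] En m :=
    ((stdOrthonormalBasis ℝ (Submodule.span ℝ {v})ᗮ).reindex (finCongr hfr)).repr
  let L : En m →ₗᵢ[ℝ] En (m + 1) := (Submodule.span ℝ {v})ᗮ.subtypeₗᵢ.comp e.symm.toLinearIsometry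
  have hLv : ∀ b, ⟪L b, v⟫ = 0 := by
    intro b
    have h1 : (L b) ∈ (Submodule.span ℝ {v})ᗮ := (e.symm b).2
    rw [Submodule.mem_orthogonal_singleton_iff_inner_left] at h1
    exact h1
  have hLm : Measurable L := L.continuous.measurable
  refine ⟨σ.map L, ⟨?_, ?_⟩, ?_, ?_⟩
  · exact Measure.isProbabilityMeasure_map hLm.aemeasurable
  · rw [Measure.map_apply hLm isClosed_sphere.measurableSet.compl]
    have h1 : L ⁻¹' (sphere (0 : En (m + 1)) 1)ᶜ = (sphere (0 : En m) 1)ᶜ := by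
      ext b
      simp
    rw [h1]
    exact hσs
  · have hms : MeasurableSet {b : En (m + 1) | ⟪b, v⟫ ≠ 0} := by
      have hc : Continuous fun b : En (m + 1) => ⟪b, v⟫ := continuous_id.inner continuous_const
      exact (isOpen_ne.preimage hc).measurableSet
    rw [Measure.map_apply hLm hms]
    have h1 : L ⁻¹' {b : En (m + 1) | ⟪b, v⟫ ≠ 0} = ∅ := by
      ext b
      simp [hLv b]
    rw [h1, measure_empty]
  · intro j u hu
    have hu' : u ∈ (Submodule.span ℝ {v})ᗮ := by
      rw [Submodule.mem_orthogonal_singleton_iff_inner_left]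
      exact hu
    obtain ⟨w, hw⟩ : ∃ w : En m, L w = u := by
      refine ⟨e ⟨u, hu'⟩, ?_⟩
      show ((e.symm (e ⟨u, hu'⟩) : (Submodule.span ℝ {v})ᗮ) : En (m + 1)) = u
      rw [LinearIsometryEquiv.symm_apply_apply]
    have hc : Continuous fun b : En (m + 1) => ⟪b, u⟫ ^ j :=
      (continuous_id.inner continuous_const).pow j
    rw [integral_map hLm.aemeasurable hc.aestronglyMeasurable]
    have h1 : ∀ b, ⟪L b, u⟫ = ⟪b, w⟫ := by
      intro b
      rw [← hw, L.inner_map_map]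
    simp_rw [h1]
    rw [hσm j w, ← hw, L.norm_map]

end Pool.Agent.H264.AG
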